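import Pool.Agent.H919.FP.Fin

/-!
# MP_911691_ag (project FP of helper919): the chart `Spec A ⟶ T × T` is an open immersion over `O × O`
-/

open CategoryTheory Limits AlgebraicGeometry TensorProduct

namespace Pool.Agent.H919.FP

namespace W2x

/-- ring level: after inverting `Q` the map `BB → A` is a localization -/
theorem core (hB1 : S_B1) {A : Type} [CommRing A] (D : ChartData A) (b : B →+* A)
    (hb : ∀ i, b (pB i) = D.q i)
    {BB L A' : Type} [CommRing BB] [CommRing L] [CommRing A'] [Algebra BB L] [Algebra A A']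
    (i1 i2 : B →+* BB)
    (hBB : ∀ (C : Type) [CommRing C] (f g : BB →+* C), f.comp i1 = g.comp i1 →
      f.comp i2 = g.comp i2 → f = g)
    (χ : BB →+* A) (h1 : χ.comp i1 = D.a) (h2 : χ.comp i2 = b)
    (Q : BB) [IsLocalization.Away Q L] [IsLocalization.Away (χ Q) A']
    (χ' : L →+* A') (hχ : χ'.comp (algebraMap BB L) = (algebraMap A A').comp χ)
    (hex : ∃ t u w : L, Rel (pt ((algebraMap BB L).comp i1)) (pt ((algebraMap BB L).comp i2)) t u w)
    (hun : ∀ t u w t' u' w' : A',
      Rel (fun i => algebraMap A A' (pt D.a i)) (fun i => algebraMap A A' (D.q i)) t u w →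
      Rel (fun i => algebraMap A A' (pt D.a i)) (fun i => algebraMap A A' (D.q i)) t' u' w' →
      t = t' ∧ u = u' ∧ w = w') :
    ∃ f : L, ∃ e : Localization.Away f ≃+* A',
      (e : Localization.Away f →+* A').comp (algebraMap L (Localization.Away f)) = χ' := by
  obtain ⟨t, u, w, hrel⟩ := hex
  obtain ⟨f, -, hf⟩ := D.univ L ((algebraMap BB L).comp i1) _ t u w hrel
  -- values of `χ'`
  have e1 : ∀ x : B, χ' (algebraMap BB L (i1 x)) = algebraMap A A' (D.a x) := by
    intro x
    have := congrArg (fun g : BB →+* A' => g (i1 x)) hχ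
    simp only [RingHom.comp_apply] at this
    rw [this, ← h1]; rfl
  have e2 : ∀ x : B, χ' (algebraMap BB L (i2 x)) = algebraMap A A' (b x) := by
    intro x
    have := congrArg (fun g : BB →+* A' => g (i2 x)) hχ
    simp only [RingHom.comp_apply] at this
    rw [this, ← h2]; rfl
  have hr1 : Rel (fun i => algebraMap A A' (pt D.a i)) (fun i => algebraMap A A' (D.q i))
      (algebraMap A A' D.t) (algebraMap A A' D.u) (algebraMap A A' D.w) := D.rel.map _
  have hr2 : Rel (fun i => algebraMap A A' (pt D.a i)) (fun i => algebraMap A A' (D.q i))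
      (χ' t) (χ' u) (χ' w) := by
    have h := hrel.map χ'
    have g1 : (fun i => χ' (pt ((algebraMap BB L).comp i1) i)) =
        fun i => algebraMap A A' (pt D.a i) := by
      funext i; exact e1 _
    have g2 : (fun i => χ' (pt ((algebraMap BB L).comp i2) i)) =
        fun i => algebraMap A A' (D.q i) := by
      funext i; rw [← hb]; exact e2 _
    rw [g1, g2] at h
    exact h
  obtain ⟨ht, hu, hw⟩ := hun _ _ _ _ _ _ hr1 hr2
  have hfu : IsUnit (χ' f) := by
    refine (hf A' χ').2 ⟨algebraMap A A', ?_, ?_, ht, hu, hw⟩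
    · exact RingHom.ext fun x => (e1 x).symm
    · intro i; rw [← hb]; exact (e2 _).symm
  -- the inverse
  obtain ⟨ψ, p0, p1, p2, p3, p4⟩ := (hf (Localization.Away f) (algebraMap L _)).1
    (IsLocalization.Away.algebraMap_isUnit f)
  have hψχ : ψ.comp χ = (algebraMap L (Localization.Away f)).comp (algebraMap BB L) := by
    refine hBB _ _ _ ?_ ?_
    · rw [RingHom.comp_assoc, h1, p0]; rfl
    · rw [RingHom.comp_assoc, h2]
      refine hB1.2.2.2.2.1 _ _ _ fun i => ?_
      rw [RingHom.comp_apply, hb, p1]; rfl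
  have hψQ : IsUnit (ψ (χ Q)) := by
    have := congrArg (fun g : BB →+* Localization.Away f => g Q) hψχ
    simp only [RingHom.comp_apply] at this
    rw [this]
    exact (IsLocalization.Away.algebraMap_isUnit Q).map _
  let ψ' : A' →+* Localization.Away f := IsLocalization.Away.lift (χ Q) hψQ
  let θ : Localization.Away f →+* A' := IsLocalization.Away.lift f hfu
  have hθ : θ.comp (algebraMap L _) = χ' := IsLocalization.Away.lift_comp f hfu
  have hψ' : ψ'.comp (algebraMap A A') = ψ := IsLocalization.Away.lift_comp (χ Q) hψQ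
  have hψ'a : ∀ x, ψ' (algebraMap A A' x) = ψ x := fun x => by
    rw [← hψ']; rfl
  have hθa : ∀ x, θ (algebraMap L _ x) = χ' x := fun x => by
    rw [← hθ]; rfl
  have c1 : ψ'.comp θ = RingHom.id _ := by
    apply IsLocalization.ringHom_ext (Submonoid.powers f)
    apply IsLocalization.ringHom_ext (Submonoid.powers Q)
    refine RingHom.ext fun x => ?_
    change ψ' (θ (algebraMap L _ (algebraMap BB L x))) = algebraMap L _ (algebraMap BB L x)
    have k1 := congrArg (fun g : BB →+* A' => g x) hχ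
    have k2 := congrArg (fun g : BB →+* Localization.Away f => g x) hψχ
    simp only [RingHom.comp_apply] at k1 k2
    rw [hθa, k1, hψ'a, k2]
  have c2 : θ.comp ψ' = RingHom.id _ := by
    apply IsLocalization.ringHom_ext (Submonoid.powers (χ Q))
    rw [RingHom.comp_assoc, hψ']
    refine D.ext _ _ _ ?_ ?_ ?_ ?_ ?_
    · rw [RingHom.comp_assoc, p0]
      exact RingHom.ext fun x => by
        simp only [RingHom.comp_apply, hθa, RingHom.id_apply]
        exact e1 x
    · intro i
      simp only [RingHom.comp_apply, RingHom.id_apply]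
      rw [p1, hθa, ← hb]
      exact e2 _
    · simp only [RingHom.comp_apply, RingHom.id_apply]
      rw [p2, hθa, ht]
    · simp only [RingHom.comp_apply, RingHom.id_apply]
      rw [p3, hθa, hu]
    · simp only [RingHom.comp_apply, RingHom.id_apply]
      rw [p4, hθa, hw]
  exact ⟨f, RingEquiv.ofRingHom θ ψ' c2 c1, hθ⟩

/-- `Spec` of such a map is an open immersion -/
theorem isOpenImmersion_of_equiv {L A' : Type} [CommRing L] [CommRing A'] (χ' : L →+* A') (f : L)
    (e : Localization.Away f ≃+* A')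
    (he : (e : Localization.Away f →+* A').comp (algebraMap L (Localization.Away f)) = χ') :
    IsOpenImmersion (Spec.map (CommRingCat.ofHom χ')) := by
  have : CommRingCat.ofHom χ' = CommRingCat.ofHom (algebraMap L (Localization.Away f)) ≫
      e.toCommRingCatIso.hom := by
    rw [← he]; rfl
  rw [this, Spec.map_comp]
  infer_instance

/-- transport to schemes: over the basic open set of `Q`. -/
theorem core_scheme {BB A : Type} [CommRing BB] [CommRing A] (χ : BB →+* A) (Q : BB)
    (h : IsOpenImmersion (Spec.map (CommRingCat.ofHom (Localization.awayMap χ Q)))) :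
    IsOpenImmersion (Spec.map (CommRingCat.ofHom χ) ∣_ (PrimeSpectrum.basicOpen Q)) :=
  (MorphismProperty.arrow_mk_iso_iff @IsOpenImmersion
    (SpecMapRestrictBasicOpenIso (CommRingCat.ofHom χ) Q)).2 h

/-- two opens suffice -/
theorem glue_two {X Y : Scheme.{0}} (f : X ⟶ Y) (V1 V3 U : Y.Opens)
    (h1 : IsOpenImmersion (f ∣_ V1)) (h3 : IsOpenImmersion (f ∣_ V3))
    (hU : f ⁻¹ᵁ U = f ⁻¹ᵁ (V1 ⊔ V3)) : IsOpenImmersion (f ∣_ U) := by
  have hV : IsOpenImmersion (f ∣_ (V1 ⊔ V3)) := by
    refine IsZariskiLocalAtTarget.of_forall_exists_morphismRestrict ?_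
    intro x
    rcases (show x.1 ∈ V1 ∨ x.1 ∈ V3 from x.2) with hx | hx
    · refine ⟨(V1 ⊔ V3).ι ⁻¹ᵁ V1, hx, ?_⟩
      refine (MorphismProperty.arrow_mk_iso_iff @IsOpenImmersion
        (morphismRestrictRestrict f (V1 ⊔ V3) _)).2 ?_
      refine (MorphismProperty.arrow_mk_iso_iff @IsOpenImmersion
        (morphismRestrictEq f ?_)).2 h1
      rw [Scheme.Hom.image_preimage_eq_opensRange_inf]
      simp
    · refine ⟨(V1 ⊔ V3).ι ⁻¹ᵁ V3, hx, ?_⟩
      refine (MorphismProperty.arrow_mk_iso_iff @IsOpenImmersion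
        (morphismRestrictRestrict f (V1 ⊔ V3) _)).2 ?_
      refine (MorphismProperty.arrow_mk_iso_iff @IsOpenImmersion
        (morphismRestrictEq f ?_)).2 h3
      rw [Scheme.Hom.image_preimage_eq_opensRange_inf]
      simp
  have key : ∀ (W : X.Opens), W = f ⁻¹ᵁ (V1 ⊔ V3) → IsOpenImmersion (W.ι ≫ f) := by
    rintro _ rfl
    rw [← morphismRestrict_ι]
    infer_instance
  have := key _ hU
  rw [← morphismRestrict_ι] at this
  exact IsOpenImmersion.of_comp _ U.ι

/-- points of the cone lying over the vertex -/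
theorem z_mem {A : Type} [CommRing A] (p : Fin 3 → A) (hp : hh p = 0) (P : Ideal A) [P.IsPrime]
    (h0 : p 0 ∈ P) (h1 : p 1 ∈ P) : p 2 ∈ P := by
  have h : p 2 ^ 4 = -(p 0 ^ 2 * p 2) * p 0 + (-(p 0) * p 1 ^ 2) * p 1 := by
    have := hp
    simp only [hh] at this
    linear_combination this
  have h2 : p 2 ^ 4 ∈ P := by
    rw [h]
    exact Ideal.add_mem _ (Ideal.mul_mem_left _ _ h0) (Ideal.mul_mem_left _ _ h1)
  exact Ideal.IsPrime.mem_of_pow_mem ‹_› _ h2

theorem Q_mem_left {A : Type} [CommRing A] (p q : Fin 3 → A) (hp : hh p = 0) (P : Ideal A)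
    [P.IsPrime] (h0 : p 0 ∈ P) (h1 : p 1 ∈ P) : Q1 p q ∈ P ∧ Q3 p q ∈ P := by
  have h2 := z_mem p hp P h0 h1
  have z0 := Ideal.Quotient.eq_zero_iff_mem.2 h0
  have z1 := Ideal.Quotient.eq_zero_iff_mem.2 h1
  have z2 := Ideal.Quotient.eq_zero_iff_mem.2 h2
  constructor
  · rw [← Ideal.Quotient.eq_zero_iff_mem, map_Q1]
    simp [Q1, P11, gg, n1, n2, z0, z1, z2]
  · rw [← Ideal.Quotient.eq_zero_iff_mem, map_Q3]
    simp [Q3, P33, n1, n2, n3, z0, z1, z2]

theorem Q_mem_right {A : Type} [CommRing A] (p q : Fin 3 → A) (hq : hh q = 0) (P : Ideal A)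
    [P.IsPrime] (h0 : q 0 ∈ P) (h1 : q 1 ∈ P) : Q1 p q ∈ P ∧ Q3 p q ∈ P := by
  have h2 := z_mem q hq P h0 h1
  have z0 := Ideal.Quotient.eq_zero_iff_mem.2 h0
  have z1 := Ideal.Quotient.eq_zero_iff_mem.2 h1
  have z2 := Ideal.Quotient.eq_zero_iff_mem.2 h2
  constructor
  · rw [← Ideal.Quotient.eq_zero_iff_mem, map_Q1]
    simp [Q1, P11, gg, n1, n2, z0, z1, z2]
  · rw [← Ideal.Quotient.eq_zero_iff_mem, map_Q3]
    simp [Q3, P33, n1, n2, n3, z0, z1, z2]

/-- the condition on primes of `A` -/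
theorem primes_iff {A : Type} [CommRing A] (D : ChartData A) (hp : hh (pt D.a) = 0) (P : Ideal A)
    [P.IsPrime] : (Q1 (pt D.a) D.q ∉ P ∨ Q3 (pt D.a) D.q ∉ P) ↔
      ((pt D.a 0 ∉ P ∨ pt D.a 1 ∉ P) ∧ (D.q 0 ∉ P ∨ D.q 1 ∉ P)) := by
  constructor
  · intro h
    refine ⟨?_, ?_⟩
    · by_contra hc
      push Not at hc
      have := Q_mem_left (pt D.a) D.q hp P hc.1 hc.2
      tauto
    · by_contra hc
      push Not at hc
      have := Q_mem_right (pt D.a) D.q D.hq P hc.1 hc.2
      tauto
  · rintro ⟨h, -⟩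
    by_contra hc
    push Not at hc
    obtain ⟨N, hN⟩ := D.cover
    have hle : Ideal.span {Q1 (pt D.a) D.q, Q3 (pt D.a) D.q} ≤ P := by
      rw [Ideal.span_le]
      rintro x (rfl | rfl)
      · exact hc.1
      · exact hc.2
    have hm : mI (pt D.a) ≤ P := by
      rw [mI, Ideal.span_le]
      rintro _ ⟨i, rfl⟩
      have hi : pt D.a i ^ N ∈ P :=
        hle (hN (Ideal.pow_mem_pow (Ideal.subset_span (Set.mem_range_self i)) N))
      exact Ideal.IsPrime.mem_of_pow_mem ‹_› _ hi
    have g0 : pt D.a 0 ∈ P := hm (Ideal.subset_span ⟨0, rfl⟩)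
    have g1 : pt D.a 1 ∈ P := hm (Ideal.subset_span ⟨1, rfl⟩)
    tauto

end W2x

open W2x in
theorem t_W2 (hB1 : S_B1) : S_W2 := by
  intro A _ D b hb
  have hhB := hB1.1
  have h2B := hB1.2.1
  -- the map from the tensor product
  let _ : Algebra (ZMod 2) A := (D.a.comp (algebraMap (ZMod 2) B)).toAlgebra
  have hbc : ∀ r : ZMod 2, b (algebraMap (ZMod 2) B r) = algebraMap (ZMod 2) A r := by
    intro r
    have : b.comp (algebraMap (ZMod 2) B) = algebraMap (ZMod 2) A := Subsingleton.elim _ _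
    exact congrArg (fun g : ZMod 2 →+* A => g r) this
  let aA : B →ₐ[ZMod 2] A := { D.a with commutes' := fun r => rfl }
  let bA : B →ₐ[ZMod 2] A := { b with commutes' := hbc }
  let χA : B ⊗[ZMod 2] B →ₐ[ZMod 2] A := Algebra.TensorProduct.productMap aA bA
  let χ : B ⊗[ZMod 2] B →+* A := χA.toRingHom
  let i1 : B →+* B ⊗[ZMod 2] B := Algebra.TensorProduct.includeLeftRingHom
  let i2 : B →+* B ⊗[ZMod 2] B := (Algebra.TensorProduct.includeRight : B →ₐ[ZMod 2] _).toRingHom
  have h1 : χ.comp i1 = D.a := by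
    refine RingHom.ext fun x => ?_
    change Algebra.TensorProduct.productMap aA bA (x ⊗ₜ 1) = _
    rw [Algebra.TensorProduct.productMap_apply_tmul, map_one, mul_one]
    rfl
  have h2 : χ.comp i2 = b := by
    refine RingHom.ext fun x => ?_
    change Algebra.TensorProduct.productMap aA bA (1 ⊗ₜ x) = _
    rw [Algebra.TensorProduct.productMap_apply_tmul, map_one, one_mul]
    rfl
  have hBB : ∀ (C : Type) [CommRing C] (f g : B ⊗[ZMod 2] B →+* C), f.comp i1 = g.comp i1 →
      f.comp i2 = g.comp i2 → f = g := by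
    intro C _ f g e1 e2
    refine RingHom.ext fun z => ?_
    induction z using TensorProduct.induction_on with
    | zero => rw [map_zero, map_zero]
    | tmul x y =>
      have hxy : (x ⊗ₜ[ZMod 2] y : B ⊗[ZMod 2] B) = i1 x * i2 y := by
        change _ = (x ⊗ₜ[ZMod 2] (1 : B)) * ((1 : B) ⊗ₜ[ZMod 2] y)
        rw [Algebra.TensorProduct.tmul_mul_tmul, mul_one, one_mul]
      rw [hxy, map_mul, map_mul]
      have k1 := congrArg (fun g : B →+* C => g x) e1
      have k2 := congrArg (fun g : B →+* C => g y) e2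
      simp only [RingHom.comp_apply] at k1 k2
      rw [k1, k2]
    | add x y hx hy => rw [map_add, map_add, hx, hy]
  -- points
  have two : (2 : B ⊗[ZMod 2] B) = 0 := by
    have := congrArg i1 h2B
    rwa [map_ofNat, map_zero] at this
  have hp : hh (pt i1) = 0 := by
    have := congrArg i1 hhB
    rwa [map_hh, map_zero] at this
  have hq : hh (pt i2) = 0 := by
    have := congrArg i2 hhB
    rwa [map_hh, map_zero] at this
  have hpA : hh (pt D.a) = 0 := by
    have := congrArg D.a hhB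
    rwa [map_hh, map_zero] at this
  have c1 : (fun i => χ (pt i1 i)) = pt D.a := by
    funext i; rw [← h1]; rfl
  have c2 : (fun i => χ (pt i2 i)) = D.q := by
    funext i; rw [← hb, ← h2]; rfl
  have cQ1 : χ (Q1 (pt i1) (pt i2)) = Q1 (pt D.a) D.q := by rw [map_Q1, c1, c2]
  have cQ3 : χ (Q3 (pt i1) (pt i2)) = Q3 (pt D.a) D.q := by rw [map_Q3, c1, c2]
  -- the morphism
  let e : pullback str str ≅ Spec (CommRingCat.of (B ⊗[ZMod 2] B)) := pullbackSpecIso (ZMod 2) B B
  have he1 : e.inv ≫ pullback.fst str str = Spec.map (CommRingCat.ofHom i1) :=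
    pullbackSpecIso_inv_fst (ZMod 2) B B
  have he2 : e.inv ≫ pullback.snd str str = Spec.map (CommRingCat.ofHom i2) :=
    pullbackSpecIso_inv_snd (ZMod 2) B B
  have hw : wmap D.a b = Spec.map (CommRingCat.ofHom χ) ≫ e.inv := by
    apply pullback.hom_ext
    · rw [wmap, pullback.lift_fst, Category.assoc, he1, ← Spec.map_comp, ← CommRingCat.ofHom_comp, h1]
    · rw [wmap, pullback.lift_snd, Category.assoc, he2, ← Spec.map_comp, ← CommRingCat.ofHom_comp, h2]
  have hw' : wmap D.a b ≫ e.hom = Spec.map (CommRingCat.ofHom χ) := by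
    rw [hw, Category.assoc, e.inv_hom_id, Category.comp_id]
  -- the two open sets
  have main : ∀ W : (Spec (CommRingCat.of (B ⊗[ZMod 2] B))).Opens,
      IsOpenImmersion (Spec.map (CommRingCat.ofHom χ) ∣_ W) →
      IsOpenImmersion (wmap D.a b ∣_ (e.hom ⁻¹ᵁ W)) := by
    intro W hQ
    rw [← hw', morphismRestrict_comp] at hQ
    exact @IsOpenImmersion.of_comp _ _ _ _ (e.hom ∣_ W) _ hQ
  have o : ∀ Q : B ⊗[ZMod 2] B,
      (∃ t u w : Localization.Away Q, Rel (pt ((algebraMap _ (Localization.Away Q)).comp i1))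
        (pt ((algebraMap _ (Localization.Away Q)).comp i2)) t u w) →
      (∀ t u w t' u' w' : Localization.Away (χ Q),
        Rel (fun i => algebraMap A (Localization.Away (χ Q)) (pt D.a i))
          (fun i => algebraMap A (Localization.Away (χ Q)) (D.q i)) t u w →
        Rel (fun i => algebraMap A (Localization.Away (χ Q)) (pt D.a i))
          (fun i => algebraMap A (Localization.Away (χ Q)) (D.q i)) t' u' w' →
        t = t' ∧ u = u' ∧ w = w') →
      IsOpenImmersion (wmap D.a b ∣_ (e.hom ⁻¹ᵁ (PrimeSpectrum.basicOpen Q))) := by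
    intro Q hex hun
    apply main
    apply core_scheme
    obtain ⟨f, e', he'⟩ := core hB1 D b hb i1 i2 hBB χ h1 h2 Q
      (Localization.awayMap χ Q) (IsLocalization.map_comp _) hex hun
    exact isOpenImmersion_of_equiv _ f e' he'
  refine glue_two _ (e.hom ⁻¹ᵁ (PrimeSpectrum.basicOpen (Q1 (pt i1) (pt i2))))
    (e.hom ⁻¹ᵁ (PrimeSpectrum.basicOpen (Q3 (pt i1) (pt i2)))) _ (o _ ?_ ?_) (o _ ?_ ?_) ?_
  · refine exists_rel1 ?_ ?_ ?_ ?_
    · have := congrArg (algebraMap _ (Localization.Away (Q1 (pt i1) (pt i2)))) two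
      rwa [map_ofNat, map_zero] at this
    · have := congrArg (algebraMap _ (Localization.Away (Q1 (pt i1) (pt i2)))) hp
      rwa [map_hh, map_zero] at this
    · have := congrArg (algebraMap _ (Localization.Away (Q1 (pt i1) (pt i2)))) hq
      rwa [map_hh, map_zero] at this
    · have := IsLocalization.Away.algebraMap_isUnit (S := Localization.Away (Q1 (pt i1) (pt i2)))
        (Q1 (pt i1) (pt i2))
      rwa [map_Q1] at this
  · intro t u w t' u' w' h h'
    refine Rel.unique1 ?_ h h' ?_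
    · have := congrArg (algebraMap A (Localization.Away (χ (Q1 (pt i1) (pt i2))))) D.two
      rwa [map_ofNat, map_zero] at this
    · have := IsLocalization.Away.algebraMap_isUnit
        (S := Localization.Away (χ (Q1 (pt i1) (pt i2)))) (χ (Q1 (pt i1) (pt i2)))
      rw [← map_Q1, ← cQ1]
      exact this
  · refine exists_rel3 ?_ ?_ ?_ ?_
    · have := congrArg (algebraMap _ (Localization.Away (Q3 (pt i1) (pt i2)))) two
      rwa [map_ofNat, map_zero] at this
    · have := congrArg (algebraMap _ (Localization.Away (Q3 (pt i1) (pt i2)))) hp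
      rwa [map_hh, map_zero] at this
    · have := congrArg (algebraMap _ (Localization.Away (Q3 (pt i1) (pt i2)))) hq
      rwa [map_hh, map_zero] at this
    · have := IsLocalization.Away.algebraMap_isUnit (S := Localization.Away (Q3 (pt i1) (pt i2)))
        (Q3 (pt i1) (pt i2))
      rwa [map_Q3] at this
  · intro t u w t' u' w' h h'
    refine Rel.unique3 ?_ h h' ?_
    · have := congrArg (algebraMap A (Localization.Away (χ (Q3 (pt i1) (pt i2))))) D.two
      rwa [map_ofNat, map_zero] at this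
    · have := IsLocalization.Away.algebraMap_isUnit
        (S := Localization.Away (χ (Q3 (pt i1) (pt i2)))) (χ (Q3 (pt i1) (pt i2)))
      rw [← map_Q3, ← cQ3]
      exact this
  · -- the two preimages agree
    ext x
    have hP : x.asIdeal.IsPrime := x.isPrime
    have key := primes_iff D hpA x.asIdeal
    have l : x ∈ wmap D.a b ⁻¹ᵁ UU ↔
        ((pt D.a 0 ∉ x.asIdeal ∨ pt D.a 1 ∉ x.asIdeal) ∧ (D.q 0 ∉ x.asIdeal ∨ D.q 1 ∉ x.asIdeal)) := by
      change (pullback.fst str str) (wmap D.a b x) ∈ OO ∧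
        (pullback.snd str str) (wmap D.a b x) ∈ OO ↔ _
      rw [← Scheme.Hom.comp_apply, ← Scheme.Hom.comp_apply, wmap, pullback.lift_fst,
        pullback.lift_snd, ← hb, ← hb]
      exact Iff.rfl
    have r : x ∈ wmap D.a b ⁻¹ᵁ ((e.hom ⁻¹ᵁ (PrimeSpectrum.basicOpen (Q1 (pt i1) (pt i2)))) ⊔
        (e.hom ⁻¹ᵁ (PrimeSpectrum.basicOpen (Q3 (pt i1) (pt i2))))) ↔
        (Q1 (pt D.a) D.q ∉ x.asIdeal ∨ Q3 (pt D.a) D.q ∉ x.asIdeal) := by
      change e.hom (wmap D.a b x) ∈ PrimeSpectrum.basicOpen (Q1 (pt i1) (pt i2)) ∨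
        e.hom (wmap D.a b x) ∈ PrimeSpectrum.basicOpen (Q3 (pt i1) (pt i2)) ↔ _
      rw [← Scheme.Hom.comp_apply, hw', ← cQ1, ← cQ3]
      exact Iff.rfl
    exact l.trans (key.symm.trans r.symm)

end Pool.Agent.H919.FP
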